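import Mathlib

namespace Pool.Agent.Results.MP_d7fca3_co.EipUnique

/-- A method: to each instance `q` (labels are natural numbers, `q i` is the number of copies of the model `i`,
the models of the instance are the labels with `q i ≠ 0`) it assigns a nonempty set of sequences for `q`. -/
structure Method where
  F : (ℕ →₀ ℕ) → Set (List ℕ)
  isSeq : ∀ q S, S ∈ F q → ∀ i, S.count i = q i
  nonempty : ∀ q, q ≠ 0 → (F q).Nonempty

/-- The key of the pair `(i, j)`: `(2 j - 1) Q / (2 q_i)`. -/
def key (q : ℕ →₀ ℕ) (x : ℕ × ℕ) : ℚ :=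
  (2 * (x.2 : ℚ) - 1) * ((q.sum fun _ n => n : ℕ) : ℚ) / (2 * (q x.1 : ℚ))

/-- The EIP method: list the pairs `(i, j)`, `1 ≤ j ≤ q_i`, in nondecreasing order of their keys, ties in any
order, and write the letter `i` for the pair `(i, j)`. -/
def EIP (q : ℕ →₀ ℕ) : Set (List ℕ) :=
  {S | ∃ L : List (ℕ × ℕ), L.Nodup ∧ (∀ x, x ∈ L ↔ 1 ≤ x.2 ∧ x.2 ≤ q x.1) ∧
    L.Pairwise (fun x y => key q x ≤ key q y) ∧ S = L.map Prod.fst}

/-- The instance `q` restricted to the models in `N`. -/
noncomputable def restr (q : ℕ →₀ ℕ) (N : Finset ℕ) : ℕ →₀ ℕ := q.filter (fun i => i ∈ N)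

/-- The word `S` restricted to the letters in `N`. -/
def restrW (S : List ℕ) (N : Finset ℕ) : List ℕ := S.filter (fun i => i ∈ N)

/-- Rewrite the positions of `S` occupied by letters of `N` so that they read `T`. -/
def rewr (N : Finset ℕ) : List ℕ → List ℕ → List ℕ
  | [], _ => []
  | s :: S, T => if s ∈ N then
      (match T with
        | [] => s :: rewr N S []
        | t :: T' => t :: rewr N S T')
    else s :: rewr N S T

/-- Uniform: parts (a) and (b). -/
def Uniform (M : Method) : Prop :=
  (∀ q N S, restr q N ≠ 0 → S ∈ M.F q → restrW S N ∈ M.F (restr q N)) ∧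
  (∀ q N S T, restr q N ≠ 0 → S ∈ M.F q → T ∈ M.F (restr q N) → rewr N S T ∈ M.F q)

/-- Periodic, as in the problem file. -/
def Periodic (M : Method) : Prop :=
  ∀ q : ℕ →₀ ℕ, q ≠ 0 → ∀ m : ℕ, 1 ≤ m → ∀ S ∈ M.F q, (List.replicate m S).flatten ∈ M.F (m • q)

/-- Reflective, literally as in the problem file. -/
def Reflective (M : Method) : Prop :=
  ∀ q : ℕ →₀ ℕ, ∀ S ∈ M.F q, ∃ U W : List ℕ, S = U ++ W ++ U.reverse ∧ W.Nodup ∧ ∀ i, i ∈ W ↔ Odd (q i)

/-- Periodicity of the sets of words: the words for `m q` are exactly the concatenations of `m` words for `q`. -/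
def PeriodicT (M : Method) : Prop :=
  ∀ q : ℕ →₀ ℕ, q ≠ 0 → ∀ m : ℕ, 1 ≤ m → ∀ S, S ∈ M.F (m • q) ↔
    ∃ Ws : List (List ℕ), Ws.length = m ∧ (∀ w ∈ Ws, w ∈ M.F q) ∧ S = Ws.flatten

/-- Reflectivity up to the order in the second half: every word is `U W V` with `V` a rearrangement of `U`, and
`W` one letter `i` for each `i` with `q i` odd. -/
def ReflectiveT (M : Method) : Prop :=
  ∀ q : ℕ →₀ ℕ, ∀ S ∈ M.F q, ∃ U W V : List ℕ, S = U ++ W ++ V ∧ V.Perm U.reverse ∧ W.Nodup ∧
    ∀ i, i ∈ W ↔ Odd (q i)

/-! ### From prefix inequalities to EIP -/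

lemma exists_pairs (S : List ℕ) : ∃ L : List (ℕ × ℕ), L.map Prod.fst = S ∧ L.Nodup ∧
    (∀ x, x ∈ L ↔ 1 ≤ x.2 ∧ x.2 ≤ S.count x.1) ∧
    L.Pairwise (fun x y => ∃ k, x.2 ≤ (S.take k).count x.1 ∧ (S.take k).count y.1 < y.2) := by
  induction S using List.reverseRecOn with
  | nil =>
    refine ⟨[], rfl, List.nodup_nil, ?_, List.Pairwise.nil⟩
    intro x
    simp
    omega
  | append_singleton S s ih =>
    obtain ⟨L, h1, h2, h3, h4⟩ := ih
    refine ⟨L ++ [(s, S.count s + 1)], by simp [h1], ?_, ?_, ?_⟩
    · rw [List.nodup_append]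
      refine ⟨h2, by simp, ?_⟩
      intro a ha b hb
      simp at hb
      subst hb
      rintro rfl
      have := (h3 _).1 ha
      simp at this
    · intro x
      rw [List.mem_append, h3, List.count_append]
      obtain ⟨i, j⟩ := x
      simp only [List.mem_singleton, Prod.mk.injEq]
      by_cases his : i = s
      · subst his
        simp
        omega
      · have : List.count i [s] = 0 := by
          rw [List.count_eq_zero]; simpa using his
        simp [this, his]
    · rw [List.pairwise_append]
      refine ⟨?_, by simp, ?_⟩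
      · refine h4.imp ?_
        rintro x y ⟨k, hk1, hk2⟩
        refine ⟨min k S.length, ?_⟩
        have : (S ++ [s]).take (min k S.length) = S.take k := by
          rw [List.take_append_of_le_length (min_le_right _ _)]
          rcases le_total k S.length with h | h
          · rw [min_eq_left h]
          · rw [min_eq_right h, List.take_length, List.take_of_length_le h]
        rw [this]
        exact ⟨hk1, hk2⟩
      · intro x hx y hy
        simp at hy
        subst hy
        refine ⟨S.length, ?_⟩
        have : (S ++ [s]).take S.length = S := by simp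
        rw [this]
        exact ⟨((h3 x).1 hx).2, by simp⟩

lemma mem_EIP_of_prefix (q : ℕ →₀ ℕ) (S : List ℕ) (hS : ∀ i, S.count i = q i)
    (h : ∀ k A B, A ≠ B → q A ≠ 0 → q B ≠ 0 →
      (2 * ((S.take k).count A : ℤ) - 1) * q B ≤ (2 * ((S.take k).count B : ℤ) + 1) * q A) :
    S ∈ EIP q := by
  obtain ⟨L, h1, h2, h3, h4⟩ := exists_pairs S
  refine ⟨L, h2, ?_, ?_, h1.symm⟩
  · intro x
    rw [h3, hS]
  · have h5 : L.Pairwise (fun x y => (x ∈ L ∧ y ∈ L) ∧
        ∃ k, x.2 ≤ (S.take k).count x.1 ∧ (S.take k).count y.1 < y.2) :=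
      List.Pairwise.and_mem.1 h4 |>.imp (fun h => ⟨⟨h.1, h.2.1⟩, h.2.2⟩)
    refine h5.imp ?_
    rintro ⟨A, a⟩ ⟨B, b⟩ ⟨⟨hx, hy⟩, k, hk1, hk2⟩
    have hx' := (h3 _).1 hx
    have hy' := (h3 _).1 hy
    simp only [hS] at hx' hy'
    simp only at hk1 hk2 hx' hy'
    have hA : q A ≠ 0 := by omega
    have hB : q B ≠ 0 := by omega
    have key1 : (2 * (a : ℤ) - 1) * q B ≤ (2 * (b : ℤ) - 1) * q A := by
      by_cases hAB : A = B
      · subst hAB
        have : (a : ℤ) ≤ b := by exact_mod_cast (by omega : a ≤ b)
        nlinarith [(Nat.cast_nonneg (q A) : (0 : ℤ) ≤ q A)]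
      · have := h k A B hAB hA hB
        have e1 : (a : ℤ) ≤ (S.take k).count A := by exact_mod_cast hk1
        have e2 : ((S.take k).count B : ℤ) + 1 ≤ b := by exact_mod_cast hk2
        have p1 : (0 : ℤ) ≤ q A := Nat.cast_nonneg _
        have p2 : (0 : ℤ) ≤ q B := Nat.cast_nonneg _
        nlinarith [mul_le_mul_of_nonneg_right e1 p2, mul_le_mul_of_nonneg_right e2 p1]
    have key2 : (2 * (a : ℚ) - 1) * q B ≤ (2 * (b : ℚ) - 1) * q A := by exact_mod_cast key1
    unfold key
    simp only
    have pA : (0 : ℚ) < q A := by exact_mod_cast Nat.pos_of_ne_zero hA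
    have pB : (0 : ℚ) < q B := by exact_mod_cast Nat.pos_of_ne_zero hB
    rw [div_le_div_iff₀ (by positivity) (by positivity)]
    have pQ : (0 : ℚ) ≤ ((q.sum fun _ n => n : ℕ) : ℚ) := Nat.cast_nonneg _
    nlinarith [mul_le_mul_of_nonneg_right key2 pQ]


/-! ### The basic inequality -/

/-- The inequality satisfied by the counts `x` of `A` and `z` of `C`, with `s` copies of `C` per copy of `A`. -/
def Ineq (s : ℕ) (x z : ℤ) : Prop := (2 * x - 1) * s - 1 ≤ 2 * z ∧ 2 * z ≤ (2 * x + 1) * s + 1

lemma ineq_shift (s : ℕ) (x z : ℤ) (h : Ineq s x z) : Ineq s (1 + x) (s + z) := by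
  unfold Ineq at *
  constructor
  · nlinarith [h.1]
  · nlinarith [h.2]

/-- One period. -/
lemma ineq_one (A C s : ℕ) (q : ℕ →₀ ℕ) (hA : q A = 1) (hC : q C = s) (w : List ℕ)
    (hw : ∀ i, w.count i = q i)
    (hr : ∃ U W V : List ℕ, w = U ++ W ++ V ∧ V.Perm U.reverse ∧ W.Nodup ∧ ∀ i, i ∈ W ↔ Odd (q i)) (k : ℕ) :
    Ineq s ((w.take k).count A) ((w.take k).count C) := by
  obtain ⟨U, W, V, e, hV, hWn, hW⟩ := hr
  have cW : ∀ i, W.count i = q i % 2 := by
    intro i
    by_cases hi : i ∈ W
    · rw [List.count_eq_one_of_mem hWn hi]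
      have := (hW i).1 hi
      rw [Nat.odd_iff] at this
      exact this.symm
    · rw [List.count_eq_zero_of_not_mem hi]
      have : ¬ Odd (q i) := fun h => hi ((hW i).2 h)
      rw [Nat.odd_iff] at this
      omega
  have cV : ∀ i, V.count i = U.count i := by
    intro i
    rw [hV.count_eq, List.count_reverse]
  have cU : ∀ i, U.count i = q i / 2 := by
    intro i
    have h1 := hw i
    rw [e, List.count_append, List.count_append, cW, cV] at h1
    omega
  have x1 : (w.take k).count A ≤ 1 := by
    have : (w.take k).count A ≤ w.count A := (List.take_sublist k w).count_le A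
    rw [hw, hA] at this
    exact this
  have z1 : (w.take k).count C ≤ s := by
    have : (w.take k).count C ≤ w.count C := (List.take_sublist k w).count_le C
    rw [hw, hC] at this
    exact this
  have uA := cU A
  have uC := cU C
  have wA := cW A
  have wC := cW C
  rw [hA] at uA wA
  rw [hC] at uC wC
  -- two cases
  have hcase : ((w.take k).count A = 1 ∧ s / 2 ≤ (w.take k).count C) ∨
      ((w.take k).count A = 0 ∧ (w.take k).count C ≤ s / 2 + s % 2) := by
    rcases le_or_gt k U.length with hk | hk
    · right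
      have e1 : w.take k = U.take k := by
        rw [e, List.append_assoc, List.take_append_of_le_length hk]
      rw [e1]
      have a1 : (U.take k).count A ≤ U.count A := (List.take_sublist k U).count_le A
      have a2 : (U.take k).count C ≤ U.count C := (List.take_sublist k U).count_le C
      omega
    · have e1 : w.take k = U ++ (W ++ V).take (k - U.length) := by
        rw [e, List.append_assoc, List.take_append, List.take_of_length_le (by omega)]
      rcases le_or_gt (k - U.length) W.length with hk2 | hk2
      · have e2 : (W ++ V).take (k - U.length) = W.take (k - U.length) :=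
          List.take_append_of_le_length hk2
        rw [e1, e2, List.count_append, List.count_append]
        have a1 : (W.take (k - U.length)).count A ≤ W.count A := (List.take_sublist _ W).count_le A
        have a2 : (W.take (k - U.length)).count C ≤ W.count C := (List.take_sublist _ W).count_le C
        rcases Nat.eq_zero_or_pos ((W.take (k - U.length)).count A) with h0 | h0
        · right; omega
        · left; omega
      · left
        have e2 : (W ++ V).take (k - U.length) = W ++ V.take (k - U.length - W.length) := by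
          rw [List.take_append, List.take_of_length_le (by omega)]
        have e3 : (w.take k).count A = U.count A + (W.count A + (V.take (k - U.length - W.length)).count A) := by
          rw [e1, e2, List.count_append, List.count_append]
        have e4 : (w.take k).count C = U.count C + (W.count C + (V.take (k - U.length - W.length)).count C) := by
          rw [e1, e2, List.count_append, List.count_append]
        omega
  generalize (w.take k).count A = x at *
  generalize (w.take k).count C = z at *
  unfold Ineq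
  rcases hcase with ⟨rfl, h⟩ | ⟨rfl, h⟩
  · push_cast
    omega
  · push_cast
    omega

/-- Several periods. -/
lemma ineq_flatten (A C s : ℕ) (Ws : List (List ℕ))
    (h : ∀ w ∈ Ws, w.count A = 1 ∧ w.count C = s ∧ ∀ k, Ineq s ((w.take k).count A) ((w.take k).count C)) (k : ℕ) :
    Ineq s ((Ws.flatten.take k).count A) ((Ws.flatten.take k).count C) := by
  induction Ws generalizing k with
  | nil =>
    have : (0 : ℤ) ≤ s := Nat.cast_nonneg _
    unfold Ineq
    simp only [List.flatten_nil, List.take_nil, List.count_nil, Nat.cast_zero]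
    constructor <;> linarith
  | cons w Ws ih =>
    rw [List.flatten_cons, List.take_append]
    rcases le_or_gt k w.length with hk | hk
    · have : k - w.length = 0 := by omega
      rw [this, List.take_zero, List.append_nil]
      exact (h w (by simp)).2.2 k
    · rw [List.take_of_length_le hk.le, List.count_append, List.count_append]
      have h1 := h w (by simp)
      rw [h1.1, h1.2.1]
      have h2 := ih (fun w' hw' => h w' (by simp [hw'])) (k - w.length)
      have h3 := ineq_shift s _ _ h2
      push_cast
      exact h3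

/-- A prefix of a filtered word is a filtered prefix. -/
lemma take_filter (p : ℕ → Bool) (S : List ℕ) (k : ℕ) : ∃ l, (S.filter p).take k = (S.take l).filter p := by
  induction S generalizing k with
  | nil => exact ⟨0, by simp⟩
  | cons s S ih =>
    by_cases hs : p s
    · rw [List.filter_cons_of_pos hs]
      cases k with
      | zero => exact ⟨0, by simp⟩
      | succ k =>
        obtain ⟨l, hl⟩ := ih k
        exact ⟨l + 1, by rw [List.take_succ_cons, List.take_succ_cons, List.filter_cons_of_pos hs, hl]⟩
    · rw [List.filter_cons_of_neg hs]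
      obtain ⟨l, hl⟩ := ih k
      exact ⟨l + 1, by rw [List.take_succ_cons, List.filter_cons_of_neg hs, hl]⟩

lemma filter_take (p : ℕ → Bool) (S : List ℕ) (k : ℕ) : ∃ l, (S.take k).filter p = (S.filter p).take l := by
  induction S generalizing k with
  | nil => exact ⟨0, by simp⟩
  | cons s S ih =>
    cases k with
    | zero => exact ⟨0, by simp⟩
    | succ k =>
      obtain ⟨l, hl⟩ := ih k
      by_cases hs : p s
      · exact ⟨l + 1, by rw [List.take_succ_cons, List.filter_cons_of_pos hs, List.filter_cons_of_pos hs,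
          List.take_succ_cons, hl]⟩
      · exact ⟨l, by rw [List.take_succ_cons, List.filter_cons_of_neg hs, List.filter_cons_of_neg hs, hl]⟩

lemma count_restrW (S : List ℕ) (N : Finset ℕ) (i : ℕ) (hi : i ∈ N) : (restrW S N).count i = S.count i := by
  unfold restrW
  rw [List.count_filter]
  simpa using hi

/-- Rewriting: the restriction of the rewritten word is the new word. -/
lemma restrW_rewr (N : Finset ℕ) (S T : List ℕ) (hT : ∀ t ∈ T, t ∈ N) (hl : T.length = (restrW S N).length) :
    restrW (rewr N S T) N = T := by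
  induction S generalizing T with
  | nil =>
    simp [restrW] at hl
    simp [rewr, restrW, hl]
  | cons s S ih =>
    by_cases hs : s ∈ N
    · cases T with
      | nil => simp [restrW, hs] at hl
      | cons t T =>
        have ht : t ∈ N := hT t (by simp)
        have e : rewr N (s :: S) (t :: T) = t :: rewr N S T := by simp [rewr, hs]
        rw [e]
        unfold restrW at *
        rw [List.filter_cons_of_pos (by simpa using ht)]
        rw [List.filter_cons_of_pos (by simpa using hs)] at hl
        rw [ih T (fun t' ht' => hT t' (by simp [ht'])) (by simpa using hl)]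
    · have e : rewr N (s :: S) T = s :: rewr N S T := by simp [rewr, hs]
      rw [e]
      unfold restrW at *
      rw [List.filter_cons_of_neg (by simpa using hs)]
      rw [List.filter_cons_of_neg (by simpa using hs)] at hl
      exact ih T hT hl


/-! ### The tie-aware theorem -/

/-- The words of `F (p A + p s C)` satisfy the basic inequality. -/
lemma ineq_pair (M : Method) (hP : PeriodicT M) (hR : ReflectiveT M) (A C p s : ℕ) (hAC : A ≠ C) (hp : 1 ≤ p)
    (q : ℕ →₀ ℕ) (hq : q = p • (Finsupp.single A 1 + Finsupp.single C s)) (w : List ℕ) (hw : w ∈ M.F q) (k : ℕ) :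
    Ineq s ((w.take k).count A) ((w.take k).count C) := by
  set q0 : ℕ →₀ ℕ := Finsupp.single A 1 + Finsupp.single C s with hq0
  have qA : q0 A = 1 := by simp [hq0, hAC.symm, Finsupp.single_apply]
  have qC : q0 C = s := by simp [hq0, hAC, Finsupp.single_apply]
  have hne : q0 ≠ 0 := by
    intro h
    rw [h] at qA
    simp at qA
  rw [hq, hP q0 hne p hp] at hw
  obtain ⟨Ws, _, hWs, rfl⟩ := hw
  refine ineq_flatten A C s Ws ?_ k
  intro w hw
  refine ⟨?_, ?_, ?_⟩
  · rw [M.isSeq _ _ (hWs w hw), qA]
  · rw [M.isSeq _ _ (hWs w hw), qC]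
  · intro k
    exact ineq_one A C s q0 qA qC w (M.isSeq _ _ (hWs w hw)) (hR q0 w (hWs w hw)) k

theorem unique (M : Method) (hU : Uniform M) (hP : PeriodicT M) (hR : ReflectiveT M) (q : ℕ →₀ ℕ)
    (S : List ℕ) (hS : S ∈ M.F q) : S ∈ EIP q := by
  refine mem_EIP_of_prefix q S (M.isSeq q S hS) ?_
  intro k A B hAB hA hB
  set C := A + B + 1 with hC
  have hAC : A ≠ C := by omega
  have hBC : B ≠ C := by omega
  set N : Finset ℕ := {A, B} with hN
  have hAN : A ∈ N := by simp [hN]
  have hBN : B ∈ N := by simp [hN]
  have hCN : C ∉ N := by simp [hN]; omega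
  set p := q A with hp
  set r := q B with hr
  set T := restrW S N with hT
  have hrestr : restr q N ≠ 0 := by
    intro h
    have : restr q N A = q A := by simp [restr, Finsupp.filter_apply, hAN]
    rw [h] at this
    simp at this
    omega
  have hTF : T ∈ M.F (restr q N) := hU.1 q N S hrestr hS
  set qs : ℕ →₀ ℕ := restr q N + Finsupp.single C (3 * p * r) with hqs
  have hqsA : qs A = p := by simp [hqs, restr, Finsupp.filter_apply, hAN, Finsupp.single_apply, hAC.symm, hp]
  have hqsB : qs B = r := by simp [hqs, restr, Finsupp.filter_apply, hBN, Finsupp.single_apply, hBC.symm, hr]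
  have hqsC : qs C = 3 * p * r := by simp [hqs, restr, Finsupp.filter_apply, hCN]
  have hqsr : restr qs N = restr q N := by
    ext i
    by_cases hi : i ∈ N
    · have : i ≠ C := by rintro rfl; exact hCN hi
      simp [restr, Finsupp.filter_apply, hi, hqs, Finsupp.single_apply, this.symm]
    · simp [restr, Finsupp.filter_apply, hi]
  have hqs0 : qs ≠ 0 := by
    intro h
    rw [h] at hqsA
    simp at hqsA
    omega
  obtain ⟨S', hS'⟩ := M.nonempty qs hqs0
  have hRF : rewr N S' T ∈ M.F qs := hU.2 qs N S' T (by rw [hqsr]; exact hrestr) hS' (by rw [hqsr]; exact hTF)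
  set R := rewr N S' T with hRdef
  have hRT : restrW R N = T := by
    apply restrW_rewr
    · intro t ht
      have := List.mem_filter.1 ht
      simpa using this.2
    · have h1 : restrW S' N ∈ M.F (restr qs N) := hU.1 qs N S' (by rw [hqsr]; exact hrestr) hS'
      rw [hqsr] at h1
      have : T.Perm (restrW S' N) := by
        rw [List.perm_iff_count]
        intro i
        rw [M.isSeq _ _ hTF, M.isSeq _ _ h1]
      exact this.length_eq
  -- the two pairs
  have hAC1 : restr qs {A, C} = p • (Finsupp.single A 1 + Finsupp.single C (3 * r)) := by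
    ext i
    by_cases h1 : i = A
    · subst h1
      simp [restr, Finsupp.filter_apply, hqsA, Finsupp.single_apply, hAC.symm]
    · by_cases h2 : i = C
      · subst h2
        simp only [restr, Finsupp.filter_apply]
        simp [hqsC, Finsupp.single_apply, hAC]
        ring
      · simp [restr, Finsupp.filter_apply, h1, h2, Finsupp.single_apply, Ne.symm h1, Ne.symm h2]
  have hBC1 : restr qs {B, C} = r • (Finsupp.single B 1 + Finsupp.single C (3 * p)) := by
    ext i
    by_cases h1 : i = B
    · subst h1
      simp [restr, Finsupp.filter_apply, hqsB, Finsupp.single_apply, hBC.symm]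
    · by_cases h2 : i = C
      · subst h2
        simp only [restr, Finsupp.filter_apply]
        simp [hqsC, Finsupp.single_apply, hBC]
        ring
      · simp [restr, Finsupp.filter_apply, h1, h2, Finsupp.single_apply, Ne.symm h1, Ne.symm h2]
  have hneA : restr qs {A, C} ≠ 0 := by
    intro h
    have : restr qs {A, C} A = qs A := by simp [restr, Finsupp.filter_apply]
    rw [h] at this
    simp at this
    omega
  have hneB : restr qs {B, C} ≠ 0 := by
    intro h
    have : restr qs {B, C} B = qs B := by simp [restr, Finsupp.filter_apply]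
    rw [h] at this
    simp at this
    omega
  have hRA := hU.1 qs {A, C} R hneA hRF
  have hRB := hU.1 qs {B, C} R hneB hRF
  -- prefixes
  obtain ⟨l, hl⟩ := filter_take (fun i => i ∈ N) S k
  obtain ⟨l', hl'⟩ := take_filter (fun i => i ∈ N) R l
  have hT1 : restrW (S.take k) N = restrW (R.take l') N := by
    unfold restrW at *
    rw [hl, ← hT, ← hRT, hl']
  have x1 : (S.take k).count A = (R.take l').count A := by
    rw [← count_restrW (S.take k) N A hAN, hT1, count_restrW _ N A hAN]
  have y1 : (S.take k).count B = (R.take l').count B := by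
    rw [← count_restrW (S.take k) N B hBN, hT1, count_restrW _ N B hBN]
  obtain ⟨l1, hl1⟩ := filter_take (fun i => i ∈ ({A, C} : Finset ℕ)) R l'
  obtain ⟨l2, hl2⟩ := filter_take (fun i => i ∈ ({B, C} : Finset ℕ)) R l'
  have i1 := ineq_pair M hP hR A C p (3 * r) hAC (by omega) _ hAC1 _ hRA l1
  have i2 := ineq_pair M hP hR B C r (3 * p) hBC (by omega) _ hBC1 _ hRB l2
  have c1 : ((restrW R {A, C}).take l1).count A = (R.take l').count A := by
    rw [← count_restrW (R.take l') {A, C} A (by simp)]
    unfold restrW
    rw [hl1]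
  have c2 : ((restrW R {A, C}).take l1).count C = (R.take l').count C := by
    rw [← count_restrW (R.take l') {A, C} C (by simp)]
    unfold restrW
    rw [hl1]
  have c3 : ((restrW R {B, C}).take l2).count B = (R.take l').count B := by
    rw [← count_restrW (R.take l') {B, C} B (by simp)]
    unfold restrW
    rw [hl2]
  have c4 : ((restrW R {B, C}).take l2).count C = (R.take l').count C := by
    rw [← count_restrW (R.take l') {B, C} C (by simp)]
    unfold restrW
    rw [hl2]
  rw [c1, c2] at i1
  rw [c3, c4] at i2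
  rw [x1, y1]
  have j1 := i1.1
  have j2 := i2.2
  push_cast at j1 j2
  have e1 : (2 * ((R.take l').count A : ℤ) - 1) * (3 * (r : ℤ)) = 3 * ((2 * ((R.take l').count A : ℤ) - 1) * r) := by
    ring
  have e2 : (2 * ((R.take l').count B : ℤ) + 1) * (3 * (p : ℤ)) = 3 * ((2 * ((R.take l').count B : ℤ) + 1) * p) := by
    ring
  rw [e1] at j1
  rw [e2] at j2
  omega

/-! ### The literal definitions -/

theorem literal (M : Method) (hP : Periodic M) (hR : Reflective M) : False := by
  set q : ℕ →₀ ℕ := Finsupp.single 0 1 + Finsupp.single 1 1 with hq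
  have q0 : q 0 = 1 := by simp [hq]
  have q1 : q 1 = 1 := by simp [hq]
  have qle : ∀ i, q i ≤ 1 := by
    intro i
    by_cases h0 : i = 0
    · subst h0; omega
    · by_cases h1 : i = 1
      · subst h1; omega
      · simp [hq, Finsupp.single_apply, Ne.symm h0, Ne.symm h1]
  have hne : q ≠ 0 := by
    intro h
    rw [h] at q0
    simp at q0
  obtain ⟨S, hS⟩ := M.nonempty q hne
  have hc := M.isSeq q S hS
  have h2 := hP q hne 2 (by norm_num) S hS
  obtain ⟨U, W, e, _, hW⟩ := hR _ _ h2
  have hW0 : W = [] := by
    rw [List.eq_nil_iff_forall_not_mem]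
    intro i hi
    have h3 := (hW i).1 hi
    have h4 : (2 • q) i = 2 * q i := by simp
    rw [h4] at h3
    exact (Nat.not_odd_iff_even.2 (even_two_mul _)) h3
  subst hW0
  simp only [List.replicate, List.flatten_cons, List.flatten_nil, List.append_nil] at e
  have hlen : S.length = U.length := by
    have := congrArg List.length e
    simp at this
    omega
  obtain ⟨e1, e2⟩ := List.append_inj e hlen
  have hpal : S.reverse = S := by
    rw [← e1] at e2
    exact e2.symm
  have hlen2 : S.length = 2 := by
    have : S.Perm [0, 1] := by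
      rw [List.perm_iff_count]
      intro i
      rw [hc]
      by_cases h0 : i = 0
      · subst h0; simp [q0]
      · by_cases h1 : i = 1
        · subst h1; simp [q1]
        · have : List.count i [0, 1] = 0 := by
            rw [List.count_eq_zero]
            simp [h0, h1]
          rw [this]
          simp [hq, Finsupp.single_apply, Ne.symm h0, Ne.symm h1]
    simpa using this.length_eq
  obtain ⟨a, b, rfl⟩ := List.length_eq_two.1 hlen2
  simp at hpal
  have hab : a = b := hpal.2
  subst hab
  have := hc a
  have h3 := qle a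
  simp at this
  omega

/-! ### EIP has the three properties -/

def Pre (q : ℕ →₀ ℕ) (S : List ℕ) : Prop :=
  (∀ i, S.count i = q i) ∧ ∀ k A B,
    (2 * ((S.take k).count A : ℤ) - 1) * q B ≤ (2 * ((S.take k).count B : ℤ) + 1) * q A

lemma count_map_fst (L : List (ℕ × ℕ)) (hL : L.Nodup) (i : ℕ) :
    (L.map Prod.fst).count i = ((L.toFinset.filter (fun x => x.1 = i)).image Prod.snd).card := by
  rw [Finset.card_image_of_injOn, List.count_eq_countP, List.countP_map, List.countP_eq_length_filter]
  · have : (L.toFinset.filter (fun x => x.1 = i)) = (L.filter ((fun x => x == i) ∘ Prod.fst)).toFinset := by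
      ext x; simp
    rw [this, List.toFinset_card_of_nodup (hL.filter _)]
  · intro x hx y hy h
    simp at hx hy
    exact Prod.ext (hx.2.trans hy.2.symm) h

lemma pre_of_EIP (q : ℕ →₀ ℕ) (S : List ℕ) (h : S ∈ EIP q) : Pre q S := by
  obtain ⟨L, hnd, hmem, hpw, rfl⟩ := h
  have hc : ∀ i, (L.map Prod.fst).count i = q i := by
    intro i
    rw [count_map_fst L hnd i]
    have : (L.toFinset.filter (fun x => x.1 = i)).image Prod.snd = Finset.Icc 1 (q i) := by
      ext j
      simp only [Finset.mem_image, Finset.mem_filter, List.mem_toFinset, Finset.mem_Icc, hmem]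
      constructor
      · rintro ⟨x, ⟨h1, h2⟩, h3⟩
        subst h2; subst h3; exact h1
      · intro h; exact ⟨(i, j), ⟨h, rfl⟩, rfl⟩
    rw [this]; simp
  refine ⟨hc, ?_⟩
  intro k A B
  rw [← List.map_take]
  have hPnd : (L.take k).Nodup := hnd.sublist (List.take_sublist _ _)
  have hx := count_map_fst (L.take k) hPnd A
  have hy := count_map_fst (L.take k) hPnd B
  have hxq : ((L.take k).map Prod.fst).count A ≤ q A := by
    rw [← hc A]
    exact ((List.take_sublist k L).map Prod.fst).count_le A
  have hyq : ((L.take k).map Prod.fst).count B ≤ q B := by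
    rw [← hc B]
    exact ((List.take_sublist k L).map Prod.fst).count_le B
  generalize ((L.take k).map Prod.fst).count A = x at *
  generalize ((L.take k).map Prod.fst).count B = y at *
  set JA := ((L.take k).toFinset.filter (fun x => x.1 = A)).image Prod.snd with hJA
  set JB := ((L.take k).toFinset.filter (fun x => x.1 = B)).image Prod.snd with hJB
  have mA : ∀ j, j ∈ JA ↔ (A, j) ∈ L.take k := by
    intro j
    simp only [hJA, Finset.mem_image, Finset.mem_filter, List.mem_toFinset]
    constructor
    · rintro ⟨x, ⟨h1, h2⟩, h3⟩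
      subst h2; subst h3; exact h1
    · intro h; exact ⟨(A, j), ⟨h, rfl⟩, rfl⟩
  have mB : ∀ j, j ∈ JB ↔ (B, j) ∈ L.take k := by
    intro j
    simp only [hJB, Finset.mem_image, Finset.mem_filter, List.mem_toFinset]
    constructor
    · rintro ⟨x, ⟨h1, h2⟩, h3⟩
      subst h2; subst h3; exact h1
    · intro h; exact ⟨(B, j), ⟨h, rfl⟩, rfl⟩
  have pA : (0 : ℤ) ≤ q A := Nat.cast_nonneg _
  have pB : (0 : ℤ) ≤ q B := Nat.cast_nonneg _
  have py : (0 : ℤ) ≤ y := Nat.cast_nonneg _
  have hxq' : (x : ℤ) ≤ q A := by exact_mod_cast hxq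
  rcases Nat.eq_zero_or_pos x with hx0 | hx0
  · subst hx0
    push_cast
    nlinarith [mul_nonneg py pA]
  rcases Nat.lt_or_ge y (q B) with hyB | hyB
  swap
  · have hyB' : (q B : ℤ) ≤ y := by exact_mod_cast hyB
    nlinarith [mul_le_mul_of_nonneg_right hxq' pB, mul_le_mul_of_nonneg_right hyB' pA]
  obtain ⟨j, hj, hjx⟩ : ∃ j ∈ JA, x ≤ j := by
    by_contra hcon
    push Not at hcon
    have hsub : JA ⊆ Finset.Icc 1 (x - 1) := by
      intro j hj
      have h1 := hcon j hj
      have h2 := (hmem _).1 (List.mem_of_mem_take ((mA j).1 hj))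
      simp only [Finset.mem_Icc]
      simp only at h2
      omega
    have := Finset.card_le_card hsub
    rw [Nat.card_Icc] at this
    omega
  obtain ⟨j', hj', hj'x⟩ : ∃ j' ∈ Finset.Icc 1 (y + 1), j' ∉ JB := by
    by_contra hcon
    push Not at hcon
    have hsub : Finset.Icc 1 (y + 1) ⊆ JB := hcon
    have := Finset.card_le_card hsub
    rw [Nat.card_Icc] at this
    omega
  rw [Finset.mem_Icc] at hj'
  have hB1 : (B, j') ∈ L := (hmem _).2 ⟨hj'.1, by simp only; omega⟩
  have hB2 : (B, j') ∈ L.drop k := by
    rw [← List.take_append_drop k L, List.mem_append] at hB1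
    rcases hB1 with h | h
    · exact absurd ((mB j').2 h) hj'x
    · exact h
  have hpw2 : (L.take k ++ L.drop k).Pairwise (fun x y => key q x ≤ key q y) := by
    rw [List.take_append_drop]; exact hpw
  have hk := (List.pairwise_append.1 hpw2).2.2 (A, j) ((mA j).1 hj) (B, j') hB2
  have hqA : 0 < q A := by omega
  have hqB : 0 < q B := by omega
  have hQ : 0 < (q.sum fun _ n => n) := by
    have h1 : A ∈ q.support := by rw [Finsupp.mem_support_iff]; omega
    have h2 : q A ≤ q.sum fun _ n => n := by
      unfold Finsupp.sum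
      exact Finset.single_le_sum (f := fun i => q i) (fun i _ => Nat.zero_le _) h1
    omega
  unfold key at hk
  simp only at hk
  have hQ' : (0 : ℚ) < ((q.sum fun _ n => n : ℕ) : ℚ) := by exact_mod_cast hQ
  have hqA' : (0 : ℚ) < q A := by exact_mod_cast hqA
  have hqB' : (0 : ℚ) < q B := by exact_mod_cast hqB
  rw [div_le_div_iff₀ (by positivity) (by positivity)] at hk
  have hk2 : (2 * (j : ℚ) - 1) * q B ≤ (2 * (j' : ℚ) - 1) * q A := by
    have h3 : ((2 * (j : ℚ) - 1) * q B) * (2 * ((q.sum fun _ n => n : ℕ) : ℚ)) ≤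
        ((2 * (j' : ℚ) - 1) * q A) * (2 * ((q.sum fun _ n => n : ℕ) : ℚ)) := by linarith
    exact le_of_mul_le_mul_right h3 (by positivity)
  have hk3 : (2 * (j : ℤ) - 1) * q B ≤ (2 * (j' : ℤ) - 1) * q A := by exact_mod_cast hk2
  have e1 : (x : ℤ) ≤ j := by exact_mod_cast hjx
  have e2 : (j' : ℤ) ≤ y + 1 := by exact_mod_cast hj'.2
  nlinarith [mul_le_mul_of_nonneg_right e1 pB, mul_le_mul_of_nonneg_right e2 pA]

lemma EIP_iff (q : ℕ →₀ ℕ) (S : List ℕ) : S ∈ EIP q ↔ Pre q S :=
  ⟨pre_of_EIP q S, fun h => mem_EIP_of_prefix q S h.1 (fun k A B _ _ _ => h.2 k A B)⟩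

lemma length_eq (q : ℕ →₀ ℕ) (S : List ℕ) (h : ∀ i, q i = 0 → S.count i = 0) :
    ∑ i ∈ q.support, S.count i = S.length := by
  rw [← List.sum_toFinset_count_eq_length]
  symm
  apply Finset.sum_subset
  · intro i hi
    rw [Finsupp.mem_support_iff]
    intro h0
    have := h i h0
    rw [List.count_eq_zero] at this
    exact this (List.mem_toFinset.1 hi)
  · intro i _ hi
    rw [List.mem_toFinset] at hi
    exact List.count_eq_zero.2 hi

lemma balanced (q : ℕ →₀ ℕ) (S : List ℕ) (h : Pre q S) (y : ℕ → ℕ) (hy : ∀ i, y i ≤ q i)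
    (hc : ∀ A B, 0 < q A → 0 < q B → (2 * (y B : ℤ) - 1) * q A < (2 * (y A : ℤ) + 1) * q B) (i : ℕ) :
    (S.take (∑ i ∈ q.support, y i)).count i = y i := by
  set k := ∑ i ∈ q.support, y i with hk
  have hle : ∀ i, (S.take k).count i ≤ q i := by
    intro i
    rw [← h.1 i]
    exact (List.take_sublist k S).count_le i
  have hlen : S.length = ∑ i ∈ q.support, q i := by
    rw [← length_eq q S (fun i hi => by rw [h.1, hi])]
    exact Finset.sum_congr rfl (fun i _ => h.1 i)
  have hkl : k ≤ S.length := by
    rw [hlen]
    exact Finset.sum_le_sum (fun i _ => hy i)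
  have hsum : ∑ i ∈ q.support, (S.take k).count i = k := by
    rw [length_eq q (S.take k) (fun i hi => by have := hle i; omega), List.length_take]
    omega
  have hoff : ∀ i, i ∉ q.support → (S.take k).count i = y i := by
    intro i hi
    rw [Finsupp.notMem_support_iff] at hi
    have h1 := hle i
    have h2 := hy i
    omega
  by_contra hne
  have hi : i ∈ q.support := by
    by_contra hi
    exact hne (hoff i hi)
  have hA : ∃ A ∈ q.support, y A < (S.take k).count A := by
    by_contra hcon
    push Not at hcon
    have := (Finset.sum_eq_sum_iff_of_le hcon).1 (by rw [hsum])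
    exact hne (this i hi)
  have hB : ∃ B ∈ q.support, (S.take k).count B < y B := by
    by_contra hcon
    push Not at hcon
    have := (Finset.sum_eq_sum_iff_of_le hcon).1 (by rw [hsum])
    exact hne (this i hi).symm
  obtain ⟨A, hA1, hA2⟩ := hA
  obtain ⟨B, hB1, hB2⟩ := hB
  rw [Finsupp.mem_support_iff] at hA1 hB1
  have h1 := h.2 k A B
  have h2 := hc A B (by omega) (by omega)
  have e1 : (y A : ℤ) + 1 ≤ (S.take k).count A := by exact_mod_cast hA2
  have e2 : ((S.take k).count B : ℤ) + 1 ≤ y B := by exact_mod_cast hB2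
  have pA : (0 : ℤ) ≤ q A := Nat.cast_nonneg _
  have pB : (0 : ℤ) ≤ q B := Nat.cast_nonneg _
  nlinarith [mul_le_mul_of_nonneg_right e1 pB, mul_le_mul_of_nonneg_right e2 pA]

lemma smul_app (q : ℕ →₀ ℕ) (m i : ℕ) : (m • q) i = m * q i := by simp

lemma pre_append (q : ℕ →₀ ℕ) (m : ℕ) (w S : List ℕ) (hw : Pre q w) (hS : Pre (m • q) S) :
    Pre ((m + 1) • q) (w ++ S) := by
  constructor
  · intro i
    rw [List.count_append, hw.1, hS.1, smul_app, smul_app]
    ring
  · intro k A B
    rw [smul_app, smul_app, List.take_append, List.count_append, List.count_append]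
    have pA : (0 : ℤ) ≤ q A := Nat.cast_nonneg _
    have pB : (0 : ℤ) ≤ q B := Nat.cast_nonneg _
    have pm : (0 : ℤ) ≤ m := Nat.cast_nonneg _
    rcases le_or_gt k w.length with hk | hk
    · have : k - w.length = 0 := by omega
      rw [this, List.take_zero, List.count_nil, List.count_nil]
      have h := hw.2 k A B
      push_cast
      have h2 := mul_le_mul_of_nonneg_left h (by linarith : (0 : ℤ) ≤ (m : ℤ) + 1)
      nlinarith [h2]
    · rw [List.take_of_length_le hk.le, hw.1, hw.1]
      have h := hS.2 (k - w.length) A B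
      rw [smul_app, smul_app] at h
      have hA0 := (List.take_sublist (k - w.length) S).count_le A
      have hB0 := (List.take_sublist (k - w.length) S).count_le B
      rw [hS.1, smul_app] at hA0 hB0
      generalize (S.take (k - w.length)).count A = x at *
      generalize (S.take (k - w.length)).count B = y at *
      rcases Nat.eq_zero_or_pos m with hm | hm
      · subst hm
        have hx : x = 0 := by omega
        have hy : y = 0 := by omega
        subst hx; subst hy
        push_cast
        nlinarith
      · have hm' : (0 : ℤ) < m := by exact_mod_cast hm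
        push_cast at h ⊢
        have h3 : (m : ℤ) * ((2 * (x : ℤ) - 1) * q B) ≤ m * ((2 * (y : ℤ) + 1) * q A) := by nlinarith [h]
        have h4 := le_of_mul_le_mul_left h3 hm'
        have h5 := mul_le_mul_of_nonneg_left h4 (by linarith : (0 : ℤ) ≤ (m : ℤ) + 1)
        nlinarith [h5]

lemma pre_split (q : ℕ →₀ ℕ) (m : ℕ) (S : List ℕ) (h : Pre ((m + 1) • q) S) :
    ∃ w S', S = w ++ S' ∧ Pre q w ∧ Pre (m • q) S' := by
  set k := ∑ i ∈ ((m + 1) • q).support, q i with hk
  have hm' : (0 : ℤ) < (m : ℤ) + 1 := by positivity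
  have hcw : ∀ i, (S.take k).count i = q i := by
    intro i
    refine balanced ((m + 1) • q) S h (fun i => q i) ?_ ?_ i
    · intro i
      rw [smul_app]
      nlinarith
    · intro A B hA hB
      rw [smul_app] at *
      rw [smul_app]
      have hA' : 0 < q A := Nat.pos_of_mul_pos_left hA |> fun _ => by
        rcases Nat.eq_zero_or_pos (q A) with h0 | h0
        · rw [h0] at hA; omega
        · exact h0
      have hA2 : (0 : ℤ) < q A := by exact_mod_cast hA'
      have hB2 : (0 : ℤ) ≤ q B := Nat.cast_nonneg _
      push_cast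
      nlinarith [mul_pos hm' hA2, mul_nonneg hm'.le hB2]
  have hwd : ∀ i, (S.drop k).count i = m * q i := by
    intro i
    have h1 := h.1 i
    rw [← List.take_append_drop k S, List.count_append, hcw, smul_app] at h1
    have : (m + 1) * q i = m * q i + q i := by ring
    omega
  have hle : k ≤ S.length := by
    have h1 : (S.take k).length = k := by
      rw [← length_eq ((m + 1) • q) (S.take k)]
      · exact Finset.sum_congr rfl (fun i _ => hcw i)
      · intro i hi
        rw [hcw]
        rw [smul_app] at hi
        rcases Nat.mul_eq_zero.1 hi with h | h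
        · omega
        · exact h
    rw [List.length_take] at h1
    omega
  refine ⟨S.take k, S.drop k, (List.take_append_drop k S).symm, ⟨hcw, ?_⟩, ⟨fun i => by rw [hwd, smul_app], ?_⟩⟩
  · intro l A B
    rw [List.take_take]
    have h1 := h.2 (min l k) A B
    rw [smul_app, smul_app] at h1
    push_cast at h1
    have h3 : ((m : ℤ) + 1) * ((2 * ((S.take (min l k)).count A : ℤ) - 1) * q B) ≤
        ((m : ℤ) + 1) * ((2 * ((S.take (min l k)).count B : ℤ) + 1) * q A) := by nlinarith [h1]
    exact le_of_mul_le_mul_left h3 hm'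
  · intro l A B
    have e : S.take (k + l) = S.take k ++ (S.drop k).take l := List.take_add
    have h1 := h.2 (k + l) A B
    rw [e, List.count_append, List.count_append, hcw, hcw, smul_app, smul_app] at h1
    rw [smul_app, smul_app]
    push_cast at h1 ⊢
    generalize ((S.drop k).take l).count A = x at *
    generalize ((S.drop k).take l).count B = y at *
    have h3 : ((m : ℤ) + 1) * ((2 * (x : ℤ) - 1) * q B) ≤ ((m : ℤ) + 1) * ((2 * (y : ℤ) + 1) * q A) := by
      nlinarith [h1]
    have h4 := le_of_mul_le_mul_left h3 hm'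
    have h5 := mul_le_mul_of_nonneg_left h4 (by positivity : (0 : ℤ) ≤ (m : ℤ))
    nlinarith [h5]

lemma pre_periodic (q : ℕ →₀ ℕ) (m : ℕ) (S : List ℕ) : Pre (m • q) S ↔
    ∃ Ws : List (List ℕ), Ws.length = m ∧ (∀ w ∈ Ws, Pre q w) ∧ S = Ws.flatten := by
  induction m generalizing S with
  | zero =>
    constructor
    · intro h
      refine ⟨[], rfl, by simp, ?_⟩
      rw [List.flatten_nil, List.eq_nil_iff_forall_not_mem]
      intro i hi
      have := h.1 i
      rw [smul_app, zero_mul, List.count_eq_zero] at this
      exact this hi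
    · rintro ⟨Ws, h1, _, rfl⟩
      rw [List.length_eq_zero_iff] at h1
      subst h1
      constructor
      · intro i; simp
      · intro k A B; simp
  | succ m ih =>
    constructor
    · intro h
      obtain ⟨w, S', rfl, hw, hS'⟩ := pre_split q m S h
      obtain ⟨Ws, h1, h2, rfl⟩ := (ih S').1 hS'
      refine ⟨w :: Ws, by simp [h1], ?_, by simp⟩
      intro w' hw'
      rcases List.mem_cons.1 hw' with h | h
      · rw [h]; exact hw
      · exact h2 w' h
    · rintro ⟨Ws, h1, h2, rfl⟩
      cases Ws with
      | nil => simp at h1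
      | cons w Ws =>
        rw [List.flatten_cons]
        refine pre_append q m w _ (h2 w (by simp)) ?_
        exact (ih _).2 ⟨Ws, by simpa using h1, fun w' hw' => h2 w' (by simp [hw']), rfl⟩

lemma pre_reflective (q : ℕ →₀ ℕ) (S : List ℕ) (h : Pre q S) : ∃ U W V : List ℕ,
    S = U ++ W ++ V ∧ V.Perm U.reverse ∧ W.Nodup ∧ ∀ i, i ∈ W ↔ Odd (q i) := by
  set k1 := ∑ i ∈ q.support, q i / 2 with hk1
  set k2 := ∑ i ∈ q.support, (q i + 1) / 2 with hk2
  have hk12 : k1 ≤ k2 := Finset.sum_le_sum (fun i _ => by omega)
  have c1 : ∀ i, (S.take k1).count i = q i / 2 := by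
    intro i
    refine balanced q S h (fun i => q i / 2) (fun i => Nat.div_le_self _ _) ?_ i
    intro A B hA hB
    have a1 : (2 * ((q B / 2 : ℕ) : ℤ) - 1) ≤ q B - 1 := by omega
    have a2 : (q A : ℤ) ≤ 2 * ((q A / 2 : ℕ) : ℤ) + 1 := by omega
    have pA : (0 : ℤ) < q A := by exact_mod_cast hA
    have pB : (0 : ℤ) < q B := by exact_mod_cast hB
    nlinarith [mul_le_mul_of_nonneg_right a1 pA.le, mul_le_mul_of_nonneg_right a2 pB.le]
  have c2 : ∀ i, (S.take k2).count i = (q i + 1) / 2 := by
    intro i
    refine balanced q S h (fun i => (q i + 1) / 2) (fun i => by omega) ?_ i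
    intro A B hA hB
    have a1 : (2 * (((q B + 1) / 2 : ℕ) : ℤ) - 1) ≤ q B := by omega
    have a2 : (q A : ℤ) + 1 ≤ 2 * (((q A + 1) / 2 : ℕ) : ℤ) + 1 := by omega
    have pA : (0 : ℤ) < q A := by exact_mod_cast hA
    have pB : (0 : ℤ) < q B := by exact_mod_cast hB
    nlinarith [mul_le_mul_of_nonneg_right a1 pA.le, mul_le_mul_of_nonneg_right a2 pB.le]
  have e1 : S.take k2 = S.take k1 ++ (S.drop k1).take (k2 - k1) := by
    rw [← List.take_add]
    congr 1
    omega
  have cW : ∀ i, ((S.drop k1).take (k2 - k1)).count i = q i % 2 := by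
    intro i
    have h1 := c2 i
    rw [e1, List.count_append, c1] at h1
    omega
  refine ⟨S.take k1, (S.drop k1).take (k2 - k1), S.drop k2, ?_, ?_, ?_, ?_⟩
  · rw [← e1, List.take_append_drop]
  · rw [List.perm_iff_count]
    intro i
    have h1 := h.1 i
    rw [← List.take_append_drop k2 S, List.count_append, c2] at h1
    rw [List.count_reverse, c1]
    omega
  · rw [List.nodup_iff_count_le_one]
    intro i
    rw [cW]
    omega
  · intro i
    rw [← List.count_pos_iff, cW, Nat.odd_iff]
    omega

lemma restr_app (q : ℕ →₀ ℕ) (N : Finset ℕ) (i : ℕ) : restr q N i = if i ∈ N then q i else 0 := by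
  simp [restr, Finsupp.filter_apply]

lemma count_restrW_not (S : List ℕ) (N : Finset ℕ) (i : ℕ) (hi : i ∉ N) : (restrW S N).count i = 0 := by
  rw [List.count_eq_zero]
  intro h
  exact hi (by simpa using (List.mem_filter.1 h).2)

lemma pre_uniform_a (q : ℕ →₀ ℕ) (N : Finset ℕ) (S : List ℕ) (h : Pre q S) : Pre (restr q N) (restrW S N) := by
  constructor
  · intro i
    rw [restr_app]
    split_ifs with hi
    · rw [count_restrW S N i hi, h.1]
    · exact count_restrW_not S N i hi
  · intro k A B
    obtain ⟨l, hl⟩ := take_filter (fun i => i ∈ N) S k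
    have e : (restrW S N).take k = restrW (S.take l) N := hl
    rw [e, restr_app, restr_app]
    by_cases hA : A ∈ N
    · by_cases hB : B ∈ N
      · rw [if_pos hA, if_pos hB, count_restrW _ N A hA, count_restrW _ N B hB]
        exact h.2 l A B
      · rw [if_neg hB]
        push_cast
        rw [mul_zero]
        positivity
    · rw [if_neg hA, count_restrW_not _ N A hA]
      push_cast
      have : (0 : ℤ) ≤ ((if B ∈ N then q B else 0 : ℕ) : ℤ) := Nat.cast_nonneg _
      push_cast at this
      linarith

/-- Rewriting on the level of pairs. -/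
def rewrP (N : Finset ℕ) : List (ℕ × ℕ) → List (ℕ × ℕ) → List (ℕ × ℕ)
  | [], _ => []
  | s :: S, T => if s.1 ∈ N then
      (match T with
        | [] => s :: rewrP N S []
        | t :: T' => t :: rewrP N S T')
    else s :: rewrP N S T

lemma map_rewrP (N : Finset ℕ) (S T : List (ℕ × ℕ)) :
    (rewrP N S T).map Prod.fst = rewr N (S.map Prod.fst) (T.map Prod.fst) := by
  induction S generalizing T with
  | nil => simp [rewrP, rewr]
  | cons s S ih =>
    by_cases hs : s.1 ∈ N
    · cases T with
      | nil =>
        have := ih []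
        simp only [List.map_nil] at this
        simp [rewrP, rewr, hs, this]
      | cons t T => simp [rewrP, rewr, hs, ih]
    · simp [rewrP, rewr, hs, ih]

lemma map_nk_rewrP (N : Finset ℕ) (f : ℕ × ℕ → ℚ) (S T : List (ℕ × ℕ))
    (h : (S.filter (fun x => x.1 ∈ N)).map f = T.map f) : (rewrP N S T).map f = S.map f := by
  induction S generalizing T with
  | nil => simp [rewrP]
  | cons s S ih =>
    by_cases hs : s.1 ∈ N
    · rw [List.filter_cons_of_pos (by simpa using hs)] at h
      cases T with
      | nil => simp at h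
      | cons t T =>
        simp only [List.map_cons, List.cons.injEq] at h
        have e : rewrP N (s :: S) (t :: T) = t :: rewrP N S T := by simp [rewrP, hs]
        rw [e, List.map_cons, List.map_cons, ih T h.2, h.1]
    · rw [List.filter_cons_of_neg (by simpa using hs)] at h
      have e : rewrP N (s :: S) T = s :: rewrP N S T := by simp [rewrP, hs]
      rw [e, List.map_cons, List.map_cons, ih T h]

lemma perm_rewrP (N : Finset ℕ) (S T : List (ℕ × ℕ))
    (h : (S.filter (fun x => x.1 ∈ N)).length = T.length) :
    (rewrP N S T).Perm (S.filter (fun x => ¬ x.1 ∈ N) ++ T) := by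
  induction S generalizing T with
  | nil =>
    simp at h
    have : T = [] := List.length_eq_zero_iff.1 h.symm
    subst this
    simp [rewrP]
  | cons s S ih =>
    by_cases hs : s.1 ∈ N
    · rw [List.filter_cons_of_pos (by simpa using hs)] at h
      cases T with
      | nil => simp at h
      | cons t T =>
        have e : rewrP N (s :: S) (t :: T) = t :: rewrP N S T := by simp [rewrP, hs]
        rw [e, List.filter_cons_of_neg (by simpa using hs)]
        have h2 := ih T (by simpa using h)
        exact (h2.cons t).trans List.perm_middle.symm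
    · rw [List.filter_cons_of_neg (by simpa using hs)] at h
      have e : rewrP N (s :: S) T = s :: rewrP N S T := by simp [rewrP, hs]
      rw [e, List.filter_cons_of_pos (by simpa using hs), List.cons_append]
      exact (ih T h).cons s

/-- The normalised key. -/
def nk (q : ℕ →₀ ℕ) (x : ℕ × ℕ) : ℚ := (2 * (x.2 : ℚ) - 1) / (2 * (q x.1 : ℚ))

lemma key_eq (q : ℕ →₀ ℕ) (x : ℕ × ℕ) : key q x = nk q x * ((q.sum fun _ n => n : ℕ) : ℚ) := by
  unfold key nk
  ring

lemma Q_pos (q : ℕ →₀ ℕ) (A : ℕ) (hA : q A ≠ 0) : (0 : ℚ) < ((q.sum fun _ n => n : ℕ) : ℚ) := by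
  have h1 : A ∈ q.support := by rw [Finsupp.mem_support_iff]; exact hA
  have h2 : q A ≤ q.sum fun _ n => n := by
    unfold Finsupp.sum
    exact Finset.single_le_sum (f := fun i => q i) (fun i _ => Nat.zero_le _) h1
  have : 0 < q.sum fun _ n => n := by omega
  exact_mod_cast this

lemma sorted_nk (q : ℕ →₀ ℕ) (hq : q ≠ 0) (L : List (ℕ × ℕ)) :
    L.Pairwise (fun x y => key q x ≤ key q y) ↔ (L.map (nk q)).Pairwise (· ≤ ·) := by
  obtain ⟨A, hA⟩ : ∃ A, q A ≠ 0 := by
    by_contra h
    push Not at h
    exact hq (Finsupp.ext h)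
  rw [List.pairwise_map]
  have hQ := Q_pos q A hA
  constructor
  · intro h
    refine h.imp ?_
    intro x y hxy
    rw [key_eq, key_eq] at hxy
    exact le_of_mul_le_mul_right hxy hQ
  · intro h
    refine h.imp ?_
    intro x y hxy
    rw [key_eq, key_eq]
    exact mul_le_mul_of_nonneg_right hxy hQ.le

lemma EIP_uniform_b (q : ℕ →₀ ℕ) (N : Finset ℕ) (S T : List ℕ) (hr : restr q N ≠ 0) (hS : S ∈ EIP q)
    (hT : T ∈ EIP (restr q N)) : rewr N S T ∈ EIP q := by
  have hq : q ≠ 0 := by
    rintro rfl
    apply hr
    ext i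
    rw [restr_app]
    simp
  obtain ⟨LS, s1, s2, s3, rfl⟩ := hS
  obtain ⟨LT, t1, t2, t3, rfl⟩ := hT
  have hperm : (LS.filter (fun x => x.1 ∈ N)).Perm LT := by
    rw [List.perm_ext_iff_of_nodup (s1.filter _) t1]
    rintro ⟨i, j⟩
    rw [List.mem_filter, s2, t2]
    simp only [decide_eq_true_eq]
    rw [restr_app]
    split_ifs with hi
    · simp [hi]
    · simp only [hi, and_false, false_iff]
      omega
  have hsort1 := (sorted_nk q hq LS).1 s3
  have hsort2 := (sorted_nk (restr q N) hr LT).1 t3
  have e1 : LT.map (nk (restr q N)) = LT.map (nk q) := by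
    apply List.map_congr_left
    rintro ⟨i, j⟩ hx
    have h1 := (t2 _).1 hx
    simp only at h1
    rw [restr_app] at h1
    by_cases hi : i ∈ N
    · unfold nk
      simp only
      rw [restr_app, if_pos hi]
    · rw [if_neg hi] at h1
      omega
  rw [e1] at hsort2
  have hsort3 : ((LS.filter (fun x => x.1 ∈ N)).map (nk q)).Pairwise (· ≤ ·) :=
    hsort1.sublist (List.filter_sublist.map _)
  have hkeys : (LS.filter (fun x => x.1 ∈ N)).map (nk q) = LT.map (nk q) :=
    (hperm.map (nk q)).eq_of_pairwise (fun a b _ _ h1 h2 => le_antisymm h1 h2) hsort3 hsort2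
  have hp2 : (rewrP N LS LT).Perm LS := by
    refine (perm_rewrP N LS LT hperm.length_eq).trans ?_
    refine (List.Perm.append_left _ hperm.symm).trans ?_
    refine List.perm_append_comm.trans ?_
    have := List.filter_append_perm (fun x : ℕ × ℕ => decide (x.1 ∈ N)) LS
    refine List.Perm.trans ?_ this
    apply List.Perm.append_left
    apply List.Perm.of_eq
    apply List.filter_congr
    intro x _
    simp
  refine ⟨rewrP N LS LT, hp2.nodup_iff.2 s1, ?_, ?_, (map_rewrP N LS LT).symm⟩
  · intro x
    rw [hp2.mem_iff, s2]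
  · rw [sorted_nk q hq, map_nk_rewrP N (nk q) LS LT hkeys]
    exact hsort1

lemma EIP_nonempty (q : ℕ →₀ ℕ) : (EIP q).Nonempty := by
  classical
  set F : Finset (ℕ × ℕ) := (q.support ×ˢ Finset.Icc 1 (q.support.sup q)).filter (fun x => x.2 ≤ q x.1) with hF
  have hFm : ∀ x, x ∈ F ↔ 1 ≤ x.2 ∧ x.2 ≤ q x.1 := by
    intro x
    simp only [hF, Finset.mem_filter, Finset.mem_product, Finset.mem_Icc, Finsupp.mem_support_iff]
    constructor
    · rintro ⟨⟨_, h1, _⟩, h2⟩
      exact ⟨h1, h2⟩
    · rintro ⟨h1, h2⟩
      have h3 : x.1 ∈ q.support := by rw [Finsupp.mem_support_iff]; omega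
      exact ⟨⟨by omega, h1, h2.trans (Finset.le_sup (f := q) h3)⟩, h2⟩
  let r : ℕ × ℕ → ℕ × ℕ → Prop := fun x y => key q x ≤ key q y
  have : Std.Total r := ⟨fun x y => le_total _ _⟩
  have : IsTrans (ℕ × ℕ) r := ⟨fun x y z h1 h2 => le_trans h1 h2⟩
  letI : DecidableRel r := Classical.decRel r
  refine ⟨(List.insertionSort r F.toList).map Prod.fst, List.insertionSort r F.toList, ?_, ?_, ?_, rfl⟩
  · exact (List.perm_insertionSort r F.toList).nodup_iff.2 F.nodup_toList
  · intro x
    rw [(List.perm_insertionSort r F.toList).mem_iff, Finset.mem_toList, hFm]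
  · exact List.pairwise_insertionSort r F.toList

/-- EIP as a method. -/
def EIPMethod : Method where
  F := EIP
  isSeq := fun q S hS => (pre_of_EIP q S hS).1
  nonempty := fun q _ => EIP_nonempty q

theorem EIP_uniform : Uniform EIPMethod := by
  refine ⟨?_, ?_⟩
  · intro q N S _ hS
    exact (EIP_iff _ _).2 (pre_uniform_a q N S ((EIP_iff _ _).1 hS))
  · intro q N S T hr hS hT
    exact EIP_uniform_b q N S T hr hS hT

theorem EIP_periodic : PeriodicT EIPMethod := by
  intro q _ m _ S
  have h := pre_periodic q m S
  have e : S ∈ EIPMethod.F (m • q) ↔ Pre (m • q) S := EIP_iff _ _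
  rw [e, h]
  constructor
  · rintro ⟨Ws, h1, h2, h3⟩
    exact ⟨Ws, h1, fun w hw => (EIP_iff _ _).2 (h2 w hw), h3⟩
  · rintro ⟨Ws, h1, h2, h3⟩
    exact ⟨Ws, h1, fun w hw => (EIP_iff _ _).1 (h2 w hw), h3⟩

theorem EIP_reflective : ReflectiveT EIPMethod := by
  intro q S hS
  exact pre_reflective q S ((EIP_iff _ _).1 hS)

/-! ### The containment form of periodicity is not enough -/

def Bal (q : ℕ →₀ ℕ) (S : List ℕ) : Prop :=
  ∃ U W V : List ℕ, S = U ++ W ++ V ∧ ∀ i, U.count i = q i / 2 ∧ W.count i = q i % 2 ∧ V.count i = q i / 2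

lemma bal_count (q : ℕ →₀ ℕ) (S : List ℕ) (h : Bal q S) (i : ℕ) : S.count i = q i := by
  obtain ⟨U, W, V, rfl, h⟩ := h
  rw [List.count_append, List.count_append, (h i).1, (h i).2.1, (h i).2.2]
  omega

lemma bal_reflective (q : ℕ →₀ ℕ) (S : List ℕ) (h : Bal q S) : ∃ U W V : List ℕ,
    S = U ++ W ++ V ∧ V.Perm U.reverse ∧ W.Nodup ∧ ∀ i, i ∈ W ↔ Odd (q i) := by
  obtain ⟨U, W, V, rfl, h⟩ := h
  refine ⟨U, W, V, rfl, ?_, ?_, ?_⟩
  · rw [List.perm_iff_count]
    intro i
    rw [List.count_reverse, (h i).1, (h i).2.2]
  · rw [List.nodup_iff_count_le_one]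
    intro i
    rw [(h i).2.1]
    omega
  · intro i
    rw [← List.count_pos_iff, (h i).2.1, Nat.odd_iff]
    omega

lemma bal_of_pre (q : ℕ →₀ ℕ) (S : List ℕ) (h : Pre q S) : Bal q S := by
  obtain ⟨U, W, V, e, hV, hWn, hW⟩ := pre_reflective q S h
  have cW : ∀ i, W.count i = q i % 2 := by
    intro i
    by_cases hi : i ∈ W
    · rw [List.count_eq_one_of_mem hWn hi]
      have := (hW i).1 hi
      rw [Nat.odd_iff] at this
      exact this.symm
    · rw [List.count_eq_zero_of_not_mem hi]
      have : ¬ Odd (q i) := fun h => hi ((hW i).2 h)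
      rw [Nat.odd_iff] at this
      omega
  have cV : ∀ i, V.count i = U.count i := by
    intro i
    rw [hV.count_eq, List.count_reverse]
  refine ⟨U, W, V, e, fun i => ?_⟩
  have h1 := h.1 i
  rw [e, List.count_append, List.count_append, cW, cV] at h1
  rw [cW, cV]
  omega

lemma count_restrW' (S : List ℕ) (N : Finset ℕ) (i : ℕ) :
    (restrW S N).count i = if i ∈ N then S.count i else 0 := by
  split_ifs with hi
  · exact count_restrW S N i hi
  · exact count_restrW_not S N i hi

lemma bal_uniform_a (q : ℕ →₀ ℕ) (N : Finset ℕ) (S : List ℕ) (h : Bal q S) :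
    Bal (restr q N) (restrW S N) := by
  obtain ⟨U, W, V, rfl, h⟩ := h
  refine ⟨restrW U N, restrW W N, restrW V N, ?_, ?_⟩
  · unfold restrW
    rw [List.filter_append, List.filter_append]
  · intro i
    rw [count_restrW', count_restrW', count_restrW', restr_app]
    split_ifs with hi
    · exact h i
    · simp

lemma rewr_append (N : Finset ℕ) (S1 S2 T1 T2 : List ℕ) (h : (restrW S1 N).length = T1.length) :
    rewr N (S1 ++ S2) (T1 ++ T2) = rewr N S1 T1 ++ rewr N S2 T2 := by
  induction S1 generalizing T1 with
  | nil =>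
    simp [restrW] at h
    have : T1 = [] := List.length_eq_zero_iff.1 h.symm
    subst this
    simp [rewr]
  | cons s S ih =>
    unfold restrW at h
    by_cases hs : s ∈ N
    · rw [List.filter_cons_of_pos (by simpa using hs)] at h
      cases T1 with
      | nil => simp at h
      | cons t T =>
        have h2 := ih T (by unfold restrW; simpa using h)
        simp [rewr, hs, h2]
    · rw [List.filter_cons_of_neg (by simpa using hs)] at h
      have h2 := ih T1 h
      simp [rewr, hs, h2]

lemma count_rewr (N : Finset ℕ) (S T : List ℕ) (i : ℕ) (hT : ∀ t ∈ T, t ∈ N)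
    (hl : (restrW S N).length = T.length) :
    (rewr N S T).count i = if i ∈ N then T.count i else S.count i := by
  induction S generalizing T with
  | nil =>
    simp [restrW] at hl
    have : T = [] := List.length_eq_zero_iff.1 hl.symm
    subst this
    simp [rewr]
  | cons s S ih =>
    unfold restrW at hl
    by_cases hs : s ∈ N
    · rw [List.filter_cons_of_pos (by simpa using hs)] at hl
      cases T with
      | nil => simp at hl
      | cons t T =>
        have h2 := ih T (fun t' ht' => hT t' (by simp [ht'])) (by unfold restrW; simpa using hl)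
        have e : rewr N (s :: S) (t :: T) = t :: rewr N S T := by simp [rewr, hs]
        rw [e, List.count_cons, h2, List.count_cons, List.count_cons]
        have ht : t ∈ N := hT t (by simp)
        by_cases hi : i ∈ N
        · simp [hi]
        · have h3 : t ≠ i := by rintro rfl; exact hi ht
          have h4 : s ≠ i := by rintro rfl; exact hi hs
          simp [hi, h3, h4]
    · rw [List.filter_cons_of_neg (by simpa using hs)] at hl
      have h2 := ih T hT hl
      have e : rewr N (s :: S) T = s :: rewr N S T := by simp [rewr, hs]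
      rw [e, List.count_cons, h2, List.count_cons]
      by_cases hi : i ∈ N
      · have h4 : s ≠ i := by rintro rfl; exact hs hi
        simp [hi, h4]
      · simp [hi]

lemma bal_uniform_b (q : ℕ →₀ ℕ) (N : Finset ℕ) (S T : List ℕ) (hS : Bal q S) (hT : Bal (restr q N) T) :
    Bal q (rewr N S T) := by
  have hTN : ∀ t ∈ T, t ∈ N := by
    intro t ht
    by_contra h
    have h1 := bal_count _ _ hT t
    rw [restr_app, if_neg h, List.count_eq_zero] at h1
    exact h1 ht
  obtain ⟨U, W, V, rfl, h⟩ := hS
  obtain ⟨U', W', V', rfl, h'⟩ := hT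
  have lU : (restrW U N).length = U'.length := by
    apply List.Perm.length_eq
    rw [List.perm_iff_count]
    intro i
    rw [count_restrW', (h' i).1, restr_app, (h i).1]
    split_ifs <;> simp
  have lW : (restrW W N).length = W'.length := by
    apply List.Perm.length_eq
    rw [List.perm_iff_count]
    intro i
    rw [count_restrW', (h' i).2.1, restr_app, (h i).2.1]
    split_ifs <;> simp
  have lV : (restrW V N).length = V'.length := by
    apply List.Perm.length_eq
    rw [List.perm_iff_count]
    intro i
    rw [count_restrW', (h' i).2.2, restr_app, (h i).2.2]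
    split_ifs <;> simp
  refine ⟨rewr N U U', rewr N W W', rewr N V V', ?_, ?_⟩
  · rw [List.append_assoc, List.append_assoc, rewr_append N U _ U' _ lU, rewr_append N W _ W' _ lW,
      List.append_assoc]
  · intro i
    rw [count_rewr N U U' i (fun t ht => hTN t (by simp [ht])) lU,
      count_rewr N W W' i (fun t ht => hTN t (by simp [ht])) lW,
      count_rewr N V V' i (fun t ht => hTN t (by simp [ht])) lV, (h' i).1, (h' i).2.1, (h' i).2.2, (h i).1,
      (h i).2.1, (h i).2.2, restr_app]
    split_ifs <;> simp

lemma count_rep (S : List ℕ) (t i : ℕ) : ((List.replicate t S).flatten).count i = t * S.count i := by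
  induction t with
  | zero => simp
  | succ t ih =>
    rw [List.replicate_succ, List.flatten_cons, List.count_append, ih]
    ring

lemma bal_periodic (q : ℕ →₀ ℕ) (m : ℕ) (S : List ℕ) (h : Bal q S) :
    Bal (m • q) ((List.replicate m S).flatten) := by
  have hc := bal_count q S h
  rcases Nat.even_or_odd' m with ⟨t, rfl | rfl⟩
  · refine ⟨(List.replicate t S).flatten, [], (List.replicate t S).flatten, ?_, ?_⟩
    · rw [two_mul, List.replicate_add, List.flatten_append, List.append_nil]
    · intro i
      rw [count_rep, hc, smul_app, List.count_nil]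
      have : 2 * t * q i = 2 * (t * q i) := by ring
      rw [this]
      omega
  · obtain ⟨U, W, V, e, h⟩ := h
    refine ⟨(List.replicate t S).flatten ++ U, W, V ++ (List.replicate t S).flatten, ?_, ?_⟩
    · have e2 : 2 * t + 1 = t + (1 + t) := by ring
      rw [e2, List.replicate_add, List.replicate_add, List.flatten_append, List.flatten_append]
      simp only [List.replicate_one, List.flatten_cons, List.flatten_nil, List.append_nil]
      conv_lhs => rw [e]
      conv_rhs => rw [e]
      simp only [List.append_assoc]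
    · intro i
      rw [List.count_append, List.count_append, count_rep, hc, smul_app, (h i).1, (h i).2.1, (h i).2.2]
      have : (2 * t + 1) * q i = 2 * (t * q i) + q i := by ring
      rw [this]
      omega

/-- The method of all words `U W V` with `U`, `V` rearrangements of each other. -/
def BalMethod : Method where
  F := fun q => {S | Bal q S}
  isSeq := fun q S hS => bal_count q S hS
  nonempty := fun q _ => by
    obtain ⟨S, hS⟩ := EIP_nonempty q
    exact ⟨S, bal_of_pre q S (pre_of_EIP q S hS)⟩

theorem Bal_uniform : Uniform BalMethod :=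
  ⟨fun q N S _ hS => bal_uniform_a q N S hS, fun q N S T _ hS hT => bal_uniform_b q N S T hS hT⟩

theorem Bal_periodic : Periodic BalMethod := fun q _ m _ S hS => bal_periodic q m S hS

theorem Bal_reflective : ReflectiveT BalMethod := fun q S hS => bal_reflective q S hS

theorem Bal_not_EIP : ∃ q, ∃ S ∈ BalMethod.F q, S ∉ EIP q := by
  refine ⟨Finsupp.single 0 4 + Finsupp.single 1 4, [0, 0, 1, 1, 1, 1, 0, 0], ?_, ?_⟩
  · refine ⟨[0, 0, 1, 1], [], [1, 1, 0, 0], rfl, ?_⟩
    intro i
    by_cases h0 : i = 0
    · subst h0; simp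
    · by_cases h1 : i = 1
      · subst h1; simp
      · have e : (Finsupp.single 0 4 + Finsupp.single 1 4 : ℕ →₀ ℕ) i = 0 := by
          simp [h0, h1]
        rw [e]
        simp [Ne.symm h0, Ne.symm h1]
  · intro h
    have h2 := (pre_of_EIP _ _ h).2 2 0 1
    simp at h2

/-- Main theorem. -/
theorem result :
    -- the literal definitions are contradictory, so the literal statement holds vacuously
    (¬ ∃ M : Method, Periodic M ∧ Reflective M) ∧
    (∀ M : Method, Periodic M → Uniform M → Reflective M → ∀ q, ∀ S ∈ M.F q, S ∈ EIP q) ∧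
    -- with ties taken into account: EIP has the three properties, and it is the largest such method
    (∃ M : Method, M.F = EIP ∧ PeriodicT M ∧ Uniform M ∧ ReflectiveT M) ∧
    (∀ M : Method, PeriodicT M → Uniform M → ReflectiveT M → ∀ q, ∀ S ∈ M.F q, S ∈ EIP q) ∧
    -- periodicity as a mere containment is not enough
    (∃ M : Method, Periodic M ∧ Uniform M ∧ ReflectiveT M ∧ ∃ q, ∃ S ∈ M.F q, S ∉ EIP q) :=
  ⟨fun ⟨M, h1, h3⟩ => literal M h1 h3, fun M h1 _ h3 => (literal M h1 h3).elim,
    ⟨EIPMethod, rfl, EIP_periodic, EIP_uniform, EIP_reflective⟩,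
    fun M h1 h2 h3 q S hS => unique M h2 h1 h3 q S hS,
    ⟨BalMethod, Bal_periodic, Bal_uniform, Bal_reflective, Bal_not_EIP⟩⟩

end Pool.Agent.Results.MP_d7fca3_co.EipUnique
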